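import Mathlib
import Pool.Agent.Y137.HD.Defs
import Pool.Agent.TH170.GS.Rel

/-!
# Numerical and homological equivalence on all varieties which specialize to abelian varieties of a
given slope type: definitions
-/

set_option autoImplicit false

namespace Pool.Agent.Q29.NH

open Pool.Agent.TH170 Pool.Agent.H204R3.CM Pool.Agent.W547.KB Pool.Agent.W547.HR
  Pool.Agent.W495.TA Pool.Agent.TH117.PO Pool.Agent.Y137.HD Module

/-- Numerical and homological equivalence coincide on **all** varieties `X` over arbitrary fields of
characteristic `p` which specialize to abelian varieties `Y` over an algebraic closure of the field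
with `p` elements with the slope types `Φ i`, `M i` (`OfTypes`) and satisfy the conjecture `A` of
Lefschetz type (`LefschetzA`; a theorem for abelian varieties): here `A` is the ring of algebraic
cycles modulo `ℓ`-adic homological equivalence on `X`, of dimension `n`, with the ample divisor `D`
which specializes to the polarization of `Y` given by `α`. The spaces `C Y κ` of the rational classes
of algebraic cycles on the varieties `Y` have the properties in `IsCycleSystem`, `IsRosatiPositive`
and `AreTate`, all of which are known theorems. -/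
def NumEqHomForTypes {p : ℕ} [Fact p.Prime] (ν : PadicAlgCl p ≃+* ℂ) {I : Type} (K : I → Type)
    [∀ i, Field (K i)] (M : ∀ i, (K i →+* ℂ) → ℤ) (Φ : ∀ i, Set (K i →+* ℂ)) : Prop :=
  ∀ (Ω : Type) [Field Ω] [CharZero Ω] [IsAlgClosed Ω]
    (C : (Y : RedAV p ν) → (κ : Type) → ((TM Ω Y) [⋀^κ]→ₗ[Ω] Ω) → Prop), IsCycleSystem Ω C →
    IsRosatiPositive Ω C → AreTate Ω C → ∀ Y : RedAV p ν, GS.OfTypes K M Φ Y →
      ∀ α : Y.X.H1, IsPolar Y.X α →
        ∀ (A : Type) [CommRing A] [Algebra ℚ A] (n : ℕ) (gr : ℕ → Submodule ℚ A)
          (deg : A →ₗ[ℚ] ℚ) (D : A) (sp : ∀ r : ℕ, A → Form Ω Y r),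
          Specializes C n gr D Y α sp → IsCycleRing n gr deg D → LefschetzA n gr D →
            NumEqHom n gr deg

end Pool.Agent.Q29.NH
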