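import Mathlib
import Pool.Agent.Q29.NH.Defs
import Pool.Agent.Q29.HT.Spec

/-!
# Numerical and homological equivalence on all varieties which specialize to abelian varieties of a
given slope type
-/

set_option autoImplicit false

namespace Pool.Agent.Q29.NH

open Pool.Agent.TH170 Pool.Agent.H204R3.CM Pool.Agent.W547.KB Pool.Agent.W547.HR
  Pool.Agent.W495.TA Pool.Agent.TH117.PO Pool.Agent.Y137.HD Module Pool.Agent.Q29.HT

/-- The standard conjecture of Hodge type implies the conjecture D (with the conjecture `A`). -/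
theorem numEqHomForTypes_of {p : ℕ} [Fact p.Prime] {ν : PadicAlgCl p ≃+* ℂ} {I : Type}
    {K : I → Type} [∀ i, Field (K i)] {M : ∀ i, (K i →+* ℂ) → ℤ} {Φ : ∀ i, Set (K i →+* ℂ)}
    (h : PositiveForTypes ν K M Φ) : NumEqHomForTypes ν K M Φ := by
  intro Ω _ _ _ C hC hR hT Y hY α hα A _ _ n gr deg D sp hS hring hA
  refine numEqHom hring hA fun j m hjm z hz hp h0 => ?_
  by_contra hz0
  have h1 := (h Ω C hC hR hT Y hY α hα).2 A n gr deg D sp hS hring j m hjm z hz hp hz0
  rw [h0, map_zero, mul_zero] at h1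
  exact lt_irrefl _ h1

end Pool.Agent.Q29.NH
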