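import Mathlib
import Pool.Agent.Y137.HD.Defs
import Pool.Agent.TH170.GS.Rel

/-!
# The numerical standard conjecture of Hodge type for the abelian varieties which specialize to abelian
varieties of a given slope type: definitions
-/

set_option autoImplicit false

namespace Pool.Agent.Q29.NH

open Pool.Agent.TH170 Pool.Agent.H204R3.CM Pool.Agent.W547.KB Pool.Agent.W547.HR
  Pool.Agent.W495.TA Pool.Agent.TH117.PO Pool.Agent.Y137.HD Module

/-- The cycle class `z` of codimension `i` is numerically trivial: its intersection numbers with the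
cycles of codimension `n - i` are zero. -/
def NumTrivial {A : Type} [CommRing A] [Algebra ℚ A] (n : ℕ) (gr : ℕ → Submodule ℚ A)
    (deg : A →ₗ[ℚ] ℚ) (i : ℕ) (z : A) : Prop :=
  ∀ w ∈ gr (n - i), deg (z * w) = 0

/-- The numerical standard conjecture of Hodge type: for `2 j + m = n` and every cycle `a` of
codimension `j` which is not numerically trivial and primitive modulo numerical equivalence, that is,
`D ^ (m + 1) * a` is numerically trivial, the number `(-1) ^ j * deg (a * a * D ^ m)` is positive. -/
def NumHodgePositive {A : Type} [CommRing A] [Algebra ℚ A] (n : ℕ) (gr : ℕ → Submodule ℚ A)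
    (deg : A →ₗ[ℚ] ℚ) (D : A) : Prop :=
  ∀ j m : ℕ, 2 * j + m = n → ∀ a ∈ gr j, NumTrivial n gr deg (j + m + 1) (D ^ (m + 1) * a) →
    ¬ NumTrivial n gr deg j a → 0 < (-1 : ℚ) ^ j * deg (a * (a * D ^ m))

/-- **The numerical standard conjecture of Hodge type for all abelian varieties `X`** over arbitrary
algebraically closed fields of characteristic `p` which specialize to abelian varieties `Y` over an
algebraic closure of the field with `p` elements with the slope types `Φ i`, `M i` (`OfTypes`), and
numerical and homological equivalence coincide on `X`: here `A` is the ring of algebraic cycles modulo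
`ℓ`-adic homological equivalence on `X`, of dimension `n`, with the ample divisor `D` which
specializes to the polarization of `Y` given by `α`; the conjecture `A` of Lefschetz type
(`LefschetzA`) is a theorem for abelian varieties. The spaces `C Y κ` of the rational classes of
algebraic cycles on the varieties `Y` have the properties in `IsCycleSystem`, `IsRosatiPositive` and
`AreTate`, all of which are known theorems. -/
def NumPositiveForTypes {p : ℕ} [Fact p.Prime] (ν : PadicAlgCl p ≃+* ℂ) {I : Type} (K : I → Type)
    [∀ i, Field (K i)] (M : ∀ i, (K i →+* ℂ) → ℤ) (Φ : ∀ i, Set (K i →+* ℂ)) : Prop :=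
  ∀ (Ω : Type) [Field Ω] [CharZero Ω] [IsAlgClosed Ω]
    (C : (Y : RedAV p ν) → (κ : Type) → ((TM Ω Y) [⋀^κ]→ₗ[Ω] Ω) → Prop), IsCycleSystem Ω C →
    IsRosatiPositive Ω C → AreTate Ω C → ∀ Y : RedAV p ν, GS.OfTypes K M Φ Y →
      ∀ α : Y.X.H1, IsPolar Y.X α →
        ∀ (A : Type) [CommRing A] [Algebra ℚ A] (n : ℕ) (gr : ℕ → Submodule ℚ A)
          (deg : A →ₗ[ℚ] ℚ) (D : A) (sp : ∀ r : ℕ, A → Form Ω Y r),
          Specializes C n gr D Y α sp → IsCycleRing n gr deg D → LefschetzA n gr D →
            NumHodgePositive n gr deg D ∧ NumEqHom n gr deg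

end Pool.Agent.Q29.NH
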