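import Mathlib
import Pool.Agent.Q29.NH.NumDefs
import Pool.Agent.Q29.NH.Main

/-!
# The numerical standard conjecture of Hodge type for the abelian varieties which specialize to abelian
varieties of a given slope type
-/

set_option autoImplicit false

namespace Pool.Agent.Q29.NH

open Pool.Agent.TH170 Pool.Agent.H204R3.CM Pool.Agent.W547.KB Pool.Agent.W547.HR
  Pool.Agent.W495.TA Pool.Agent.TH117.PO Pool.Agent.Y137.HD Module Pool.Agent.Q29.HT

/-- The numerical form of the standard conjecture of Hodge type follows from the homological one if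
numerical and homological equivalence coincide. -/
theorem numHodgePositive_of {A : Type} [CommRing A] [Algebra ℚ A] {n : ℕ}
    {gr : ℕ → Submodule ℚ A} {deg : A →ₗ[ℚ] ℚ} {D : A} (hR : IsCycleRing n gr deg D)
    (hpos : HodgePositive n gr deg D) (hnum : NumEqHom n gr deg) :
    NumHodgePositive n gr deg D := by
  intro j m hjm a ha hprim hnt
  have hmem : D ^ (m + 1) * a ∈ gr (j + m + 1) := by
    have h := hR.pow_mul_mem (m + 1) ha
    rwa [show m + 1 + j = j + m + 1 by omega] at h
  have h0 : D ^ (m + 1) * a = 0 := by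
    rcases Nat.lt_or_ge n (j + m + 1) with h | h
    · exact hR.bound h hmem
    · exact hnum _ h _ hmem hprim
  refine hpos j m hjm a ha h0 fun ha0 => hnt fun w _ => ?_
  rw [ha0, zero_mul, map_zero]

theorem numPositiveForTypes_of {p : ℕ} [Fact p.Prime] {ν : PadicAlgCl p ≃+* ℂ} {I : Type}
    {K : I → Type} [∀ i, Field (K i)] {M : ∀ i, (K i →+* ℂ) → ℤ} {Φ : ∀ i, Set (K i →+* ℂ)}
    (h : PositiveForTypes ν K M Φ) : NumPositiveForTypes ν K M Φ := by
  intro Ω _ _ _ C hC hR hT Y hY α hα A _ _ n gr deg D sp hS hring hA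
  have h1 := numEqHomForTypes_of h Ω C hC hR hT Y hY α hα A n gr deg D sp hS hring hA
  exact ⟨numHodgePositive_of hring
    ((h Ω C hC hR hT Y hY α hα).2 A n gr deg D sp hS hring) h1, h1⟩

end Pool.Agent.Q29.NH
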